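import Pool.Agent.W900.RB.Fin

/-!
# How many strings of a random oracle have to be changed to make `P ≠ RP`, or `RP = NP`?

For almost every oracle `O`, `P^O = RP^O ≠ NP^O` (Bennett, Gill). Here the oracle `O` is changed by
an adversary who knows it: for a function `g`, the oracle `A` is obtained from `O` by changing, for
all large `n`, at most `g n` of the strings of length at most `n`. We determine which of the four
combinations of `P = RP` or `P ≠ RP` and `RP = NP` or `RP ≠ NP` can be attained, for every `g`: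

* `P = RP ≠ NP` always (by `O` itself, for almost every `O`);
* `P ≠ RP ≠ NP` if and only if `g` is not polynomially bounded, and one can have `RP ⊄ coNP` then;
* `P = RP = NP`, and also `P ≠ RP = NP`, if and only if `g` is not subexponential.

Here the negative statements mean: for almost every `O` there is no such `A` with at most `g` changes.
-/

set_option autoImplicit false

namespace Pool.Agent.Results.MP_b573ec_lc.ChangedStrings

open Pool.Agent.NPC Pool.Agent.H620R2.Gauge Pool.Agent.W900.RB Pool.Agent.W900.CH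
open Pool.Agent.H628R3.RO (randomOracle)
open MeasureTheory

/-- `g` is polynomially bounded: for some `c` and all large `n` there is `m ≥ n` with
`g m ≤ n ^ c`. (For nondecreasing `g` this says that `g n ≤ n ^ c` for all large `n`.) -/
def PolyBdd (g : ℕ → ℝ) : Prop :=
  ∃ c : ℕ, ∀ᶠ n : ℕ in Filter.atTop, ∃ m ≥ n, g m ≤ (n : ℝ) ^ c

/-- `g` is subexponential at infinitely many places. -/
def Subexp (g : ℕ → ℝ) : Prop :=
  ∀ ε : ℝ, 0 < ε → ∃ᶠ n : ℕ in Filter.atTop, g n ≤ 2 ^ (n : ℝ) ^ ε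

theorem result (g : ℕ → ℝ) :
    (PolyBdd g → ∀ᵐ O ∂randomOracle, ∀ A : Oracle, Close g O A → ∀ L, IsRP A L ↔ IsP A L) ∧
    (¬ PolyBdd g → ∀ᵐ O ∂randomOracle, ∃ A : Oracle, Close g O A ∧
      (∃ L, IsRP A L ∧ ¬ IsP A L ∧ ¬ IsNP A Lᶜ) ∧ ∃ L, IsNP A L ∧ ¬ IsRP A L) ∧
    (Subexp g → ∀ᵐ O ∂randomOracle, ∀ A : Oracle, Close g O A →
      ∃ L, IsNP A L ∧ ¬ IsRP A L ∧ ¬ WithAdvice (IsNP A) Lᶜ) ∧
    (¬ Subexp g → ∀ O : Oracle,
      (∃ A : Oracle, Close g O A ∧ (∀ L, IsRP A L ↔ IsP A L) ∧ ∀ L, IsNP A L ↔ IsRP A L) ∧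
      ∃ A : Oracle, Close g O A ∧ (∃ L, IsRP A L ∧ ¬ IsP A L) ∧
        ∀ L, IsNP A L ↔ IsRP A L) := by
  refine ⟨fun h => ?_, fun h => ?_, fun h => ?_, fun h O => ⟨?_, ?_⟩⟩
  · have hs : ¬ Super g := by
      unfold Super
      push Not
      exact h
    obtain ⟨c, hc⟩ := pclose_of_not_super hs
    filter_upwards [ae_rp] with O h1 A hA L
    exact ⟨h1 A ⟨c, hc O A hA⟩ L, isRP_of_isP⟩
  · filter_upwards [exists_rp_np (super_of_not h)] with O hO
    obtain ⟨A, hA, ⟨L, h1, h2⟩, L', h3, h4⟩ := hO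
    exact ⟨A, hA, ⟨L, h1, fun h5 => h2 h5.compl.isNP, h2⟩, L', h3,
      fun h5 => h4 (withAdvice_compl (isBPP_of_isRP h5))⟩
  · filter_upwards [ae_coNP h] with O hO A hA
    obtain ⟨L, h1, h2⟩ := hO A hA
    exact ⟨L, h1, fun h5 => h2 (withAdvice_compl (isBPP_of_isRP h5)), h2⟩
  · obtain ⟨A, h1, h2⟩ := exists_close_PSPACE h O
    have h3 : ∀ L, IsPSPACE A L → IsP A L := fun L hL => isP_of_reduces (h2 L hL)
    exact ⟨A, h1, fun L => ⟨fun hL => h3 L (isNP_of_isRP hL).isPSPACE, isRP_of_isP⟩,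
      fun L => ⟨fun hL => isRP_of_isP (h3 L hL.isPSPACE), isNP_of_isRP⟩⟩
  · obtain ⟨A, h1, h2, L, hL, hL'⟩ := exists_close_ZPP h O
    exact ⟨A, h1, ⟨L, isRP_of_isZPP hL, hL'⟩,
      fun L => ⟨fun hL => isRP_of_isZPP (h2 L (Or.inr hL.isPSPACE)), isNP_of_isRP⟩⟩

end Pool.Agent.Results.MP_b573ec_lc.ChangedStrings
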