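import Pool.Agent.W901.RL.Laws

/-!
# `RP = NP` and guessing the answers to many `NP` questions

Polynomial time is Mathlib's `Turing.TM2ComputableInPolyTime` (through
`Pool.Agent.NPC.PolyTime`); `InNP`, `NPHard` are those of
`Pool.Agent.NPC.Defs`, `InRP`, `InBPP` those of `Pool.Agent.W920.NL.DefsR`; all notions for
predictions and games are in `Pool.Agent.W901.RL.DefsL`.

A probabilistic polynomial-time algorithm gets a list of `m ≥ 2` questions is `q` in `A`?.  For each
fixed number `c ≥ 1`, the following are equivalent to `NP ⊆ RP`, and to `NP ⊆ BPP`:

* mean square: for some `NP`-hard `A` and all lists with questions of length at most `m ^ ε`, it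
  makes predictions for some of the questions (the choice is free) such that
  `(right - wrong) ^ 2 / (number of predictions)` has mean at least `1 + m ^ (-c)`; tossing coins
  gives the mean `1`, exactly, for every set and every list;
* parity: for some `NP`-hard `A` and all lists with questions of polynomial length, it finds with
  probability at least `1 / 2 + 1 / (2 m ^ c)` a nonempty set of questions and the parity of the
  answers to them;
* any fair game: for some `NP`-hard `A` and all lists with questions of polynomial length, its mean
  payoff against the vector of the answers exceeds the price of the game by the factor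
  `1 + m ^ (-c)`, where the game is any game with moves of polynomial length and payoffs which are
  computable in polynomial time in unary notation such that no move has a mean payoff against a
  random vector larger than the price;
* every set in `NP` is solved: all answers are right with probability at least `1 - 2 ^ (-n)`.
-/

set_option autoImplicit false

namespace Pool.Agent.Results.MP_b573ec_lc.CoinTossing

open Pool.Agent.NPC Pool.Agent.W920.NL Pool.Agent.H251R5.PQ Pool.Agent.W901.RL

/-- **Unless `RP = NP` no probabilistic polynomial-time algorithm is better than random guessing
against the answers to many questions about an `NP`-hard set, in any fair game.** -/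
theorem result (c : ℕ) (hc : 1 ≤ c) (ε : ℝ) (hε : 0 < ε) (G : Game) (hG : G.Fair) :
    List.TFAE
      [∀ L : Set (List Bool), InNP L → InRP L,
        ∀ L : Set (List Bool), InNP L → InBPP L,
        ∃ A : Set (List Bool), NPHard A ∧ MeanPredictable c ε A,
        ∃ A : Set (List Bool), NPHard A ∧ ∀ K : ℕ, ParityPredictable c K A,
        ∃ A : Set (List Bool), NPHard A ∧ ∀ K : ℕ, Wins G c K A,
        ∀ A : Set (List Bool), InNP A → Solvable A] ∧
    ∃ (g : List Bool → List (Option Bool)) (ℓ : Polynomial ℕ), PolyTime (fun z => bits (g z)) ∧
      ∀ (A : Set (List Bool)) (qs : List (List Bool)), qs ≠ [] →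
        mean (ℓ.eval (bits qs).length)
          (fun r => dev (g (pairBits (bits qs) r)) (answers A qs)) = 1 :=
  ⟨game_law hc hε hG, coin, Polynomial.X, polyTime_bits coin_poly, fun A qs h => coin_mean A qs h⟩

end Pool.Agent.Results.MP_b573ec_lc.CoinTossing
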