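import Pool.Agent.W951.BP.Main
import Pool.Agent.W951.BP.An
import Pool.Agent.W596.BP.M12
import Pool.Agent.W515.BP.Smo
import Pool.Agent.W716.BP.Par
import Pool.Agent.W397.BP.PP
import Pool.Agent.W655.BP.Bin
import Pool.Agent.W822.BP.Emb
import Pool.Agent.W366.BP.AN1
import Pool.Agent.W973.BpAN

/-!
# `k`-SAT is hard on average for randomised constant-depth circuits with modular gates

Let `p` be a prime, `k ≥ 3`, `d ≥ 1`, `γ > 0` and `b ≥ 0` with `(d - 1) b < k / (k + 1)`.  For all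
large `n` there is a finite nonempty family `F` of `k`-CNF formulas on `n` variables such that every
randomised circuit of depth at most `d` with at most `2 ^ (n ^ b)` gates AND, OR and MOD-`p` of
unbounded fan-in (negations are free) is right about the satisfiability of a uniformly random member
of `F` with probability at most `1 / 2 + γ`.

The input of the circuits is the indicator vector of the set of clauses of the formula.
-/

namespace Pool.Agent.Results.MP_b573ec_lc.ModularCircuits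

open H746R3.Inv Finset Classical
open Pool.Agent.H596R2.D3 (Clause Satisfiable)
open Pool.Agent.W951.BP (Accepts Small)

/-- `k`-SAT is hard on average for randomised circuits of depth `d` with AND, OR and MOD-`p` gates
and size `2 ^ (n ^ b)`, `(d - 1) b < k / (k + 1)`. -/
theorem result (p : ℕ) (hp : p.Prime) (k d : ℕ) (hk : 3 ≤ k) (hd : 1 ≤ d) (b γ : ℝ)
    (hb : 0 ≤ b) (hbd : ((d : ℝ) - 1) * b < (k : ℝ) / (k + 1)) (hγ : 0 < γ) :
    ∃ n₀ : ℕ, ∀ n : ℕ, n₀ ≤ n → ∃ (Ω : Type) (_ : Fintype Ω) (_ : Nonempty Ω)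
      (F : Ω → Clause n k → Bool),
      ∀ (R : Type) (_ : Fintype R) (s : ℕ) (C : R → Circuit (Clause n k) Unit),
        (s : ℝ) ≤ 2 ^ ((n : ℝ) ^ b) → (∀ ρ, Small d s (C ρ)) →
        ((univ.filter fun x : Ω × R =>
            (Accepts p (C x.2) (F x.1) ↔ Satisfiable (F x.1))).card : ℝ) ≤
          (1 / 2 + γ) * (Fintype.card Ω * Fintype.card R) := by
  obtain ⟨h, rfl⟩ : ∃ h, d = h + 1 := ⟨d - 1, by omega⟩
  have hbh : (h : ℝ) * b < (k : ℝ) / (k + 1) := by
    have : (((h + 1 : ℕ) : ℝ) - 1) = h := by push_cast; ring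
    rwa [this] at hbd
  obtain ⟨n₀, hn₀⟩ := Pool.Agent.W951.BP.main_bp Pool.Agent.W397.BP.t_PP Pool.Agent.W515.BP.t_SMO
    Pool.Agent.W655.BP.t_BIN Pool.Agent.W596.BP.t_M1 Pool.Agent.W596.BP.t_M2
    (Pool.Agent.W951.BP.an_of Pool.Agent.W366.BP.t_AN1 Pool.Agent.W973.BpAN.t_AN2
      Pool.Agent.W973.BpAN.t_AN3 Pool.Agent.W973.BpAN.t_AN4)
    Pool.Agent.W822.BP.t_EMB Pool.Agent.W716.BP.t_PAR p hp k h hk b γ hb hbh hγ
  refine ⟨n₀, fun n hn => ?_⟩
  obtain ⟨Ω, iΩ, nΩ, F, hF⟩ := hn₀ n hn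
  refine ⟨Ω, iΩ, nΩ, F, fun R iR s C hs hC => ?_⟩
  have e1 : (univ.filter fun x : Ω × R =>
      (Accepts p (C x.2) (F x.1) ↔ Satisfiable (F x.1))).card =
      ∑ ρ : R, (univ.filter fun ω : Ω =>
        (Accepts p (C ρ) (F ω) ↔ Satisfiable (F ω))).card := by
    simp only [Finset.card_filter]
    rw [Fintype.sum_prod_type_right]
  rw [e1]
  push_cast
  calc ∑ ρ : R, ((univ.filter fun ω : Ω =>
        (Accepts p (C ρ) (F ω) ↔ Satisfiable (F ω))).card : ℝ)
      ≤ ∑ _ρ : R, (1 / 2 + γ) * Fintype.card Ω :=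
        Finset.sum_le_sum fun ρ _ => hF s (C ρ) hs (hC ρ)
    _ = (1 / 2 + γ) * (Fintype.card Ω * Fintype.card R) := by
        rw [Finset.sum_const, Finset.card_univ, nsmul_eq_mul]; ring

end Pool.Agent.Results.MP_b573ec_lc.ModularCircuits
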