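import Pool.Agent.W902.Sep

/-!
# One-sided-error randomness cannot be replaced by determinism in linear time

For branching programs running in linear time we separate the analogues of `RP` and `P`, and even
of `RP` and `coRP`: there are functions with randomised programs with one-sided error which are as
simple as possible (a constant number of random choices, then `O(n)` nodes and one ordered pass over
the input, arbitrarily small error), whereas deterministic programs with `k n` queries need
`2 ^ (n / D)` nodes, i.e. space proportional to `n`. This is so even for randomised programs with
one-sided error on the other side and success probability `2 ^ (- n / D)`; in particular for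
zero-error randomised programs.

The functions. Take a constant number `M` of partitions of the variables into blocks of constant
size such that for any two sets `A`, `B` of at least a constant fraction of the variables there are
`i ∈ A`, `j ∈ B` which lie in the same block of all but `M / e` of the partitions (they are orbits
of subgroups of a group which acts on a set of about `n` vectors; the existence of the pair follows
from a spectral gap, proved from pairwise angles between the averaging operators of subgroups, as
for coset complexes). For each set `S` of more than `M - M / e` partitions a random quadratic form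
over a finite field is taken which consists of the products of the variables which are together
exactly in the partitions of `S`. The function tells whether one of these forms differs from a
prescribed value; each partition `z` gives a program which checks all the forms with `z ∈ S`. The
sum of all forms is not constant on large rectangles. The lower bound uses the partition of the
inputs of a branching program of length `k n` into rectangles (Ajtai; Beame, Saks, Sun, Vee) in
the form proved in `Pool.Agent.H554R2.Lin`.
-/

set_option autoImplicit false

namespace Pool.Agent.Results.MP_b573ec_lc.RandomNotDeterministic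

open Finset Filter Pool.Agent.H554R2.Sem Pool.Agent.H554R2.Coin

open Classical in
/-- `f` has randomised programs with one-sided error: there are `m ≤ D` deterministic programs, each
with at most `D n` nodes, which on all inputs queries the same variables in the same order, each at
most once. If `f x = false`, all of them answer `false`; if `f x = true`, at most `m / e` of them
answer `false`. -/
def OneSided {n : ℕ} (f : Pt n → Bool) (D e : ℕ) : Prop :=
  ∃ (m : ℕ) (q : Fin m → Pt n → Bool), 0 < m ∧ m ≤ D ∧
    (∀ j, ∃ (U : BP (Fin n) Bool) (l : List (Fin n)), Fintype.card U.State ≤ D * n ∧ l.Nodup ∧
      ∀ x : Pt n, U.Comp x l (q j x)) ∧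
    (∀ x, f x = false → ∀ j, q j x = false) ∧
    (∀ x, f x = true → e * (univ.filter fun j => q j x = false).card ≤ m)

open Classical in
/-- Each deterministic program with fewer than `2 ^ (n / D)` nodes which outputs `false` after at
most `t` queries on inputs with `f x = false` only, does so for at most the `2 ^ (- n / D)`-th part
of these inputs. For each finite family of such programs there is an input `x` with `f x = false`
on which at most the `2 ^ (- n / D)`-th part of the programs do so. -/
def NoProofs {n : ℕ} (f : Pt n → Bool) (D t : ℕ) : Prop :=
  (∀ P : BP (Fin n) Bool, Fintype.card P.State < 2 ^ (n / D) →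
    (∀ x l, P.Comp x l false → l.length ≤ t → f x = false) →
    2 ^ (n / D) * (univ.filter fun x => ∃ l, P.Comp x l false ∧ l.length ≤ t).card ≤
      (univ.filter fun x => f x = false).card) ∧
  ∀ (Ω : Type) [Fintype Ω] (P : Ω → BP (Fin n) Bool),
    (∀ ω, Fintype.card (P ω).State < 2 ^ (n / D)) →
    (∀ ω x l, (P ω).Comp x l false → l.length ≤ t → f x = false) →
    ∃ x, f x = false ∧
      2 ^ (n / D) * Nat.card {ω // ∃ l, (P ω).Comp x l false ∧ l.length ≤ t} ≤ Nat.card Ω

/-- 1. For all `k`, `e` there is a constant `D` such that for all `n ≥ D` there is a function of `n`
variables with randomised ordered read-once programs of size `D n` with one-sided error `1 / e`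
which take one of at most `D` random choices, while programs of size `2 ^ (n / D)` with at most
`k n` queries can prove `f x = false` for an exponentially small part of these `x` only.

2. For every function `h` which tends to infinity, there is one sequence of functions for which
this holds for all `k` and `e` and all large `n`, with `h n` in place of `D`. -/
theorem result :
    (∀ k e : ℕ, ∃ D : ℕ, 0 < D ∧ ∀ n ≥ D, ∃ f : Pt n → Bool, OneSided f D e ∧
      2 ^ n ≤ D * (univ.filter fun x => f x = false).card ∧ ∀ t ≤ k * n, NoProofs f D t) ∧
    ∀ h : ℕ → ℕ, Tendsto h atTop atTop → ∃ f : ∀ n, Pt n → Bool, ∀ k e : ℕ, ∃ N, ∀ n ≥ N,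
      OneSided (f n) (h n) e ∧ 2 ^ n ≤ h n * (univ.filter fun x => f n x = false).card ∧
      ∀ t ≤ k * n, NoProofs (f n) (h n) t := by
  have key : ∀ (n D : ℕ) (f : Pt n → Bool), 2 ^ n ≤ D * (univ.filter fun x => f x = false).card →
      0 < (univ.filter fun x => f x = false).card := by
    intro n D f h
    by_contra h0
    have h1 : (univ.filter fun x => f x = false).card = 0 := by omega
    rw [h1, mul_zero] at h
    exact absurd h (not_le.2 (Nat.pow_pos (by norm_num)))
  constructor
  · intro k e
    obtain ⟨D, hD, h⟩ := Pool.Agent.W902.Sep.fixed k e
    refine ⟨D, hD, fun n hn => ?_⟩
    obtain ⟨f, h1, h2, h3⟩ := h n hn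
    exact ⟨f, h1, h2, fun t ht => ⟨h3 t ht, fun Ω _ P hP hs =>
      (h3 t ht).family (key n D f h2) Ω P hP hs⟩⟩
  · intro h hh
    obtain ⟨f, hf⟩ := Pool.Agent.W902.Sep.uniform h hh
    refine ⟨f, fun k e => ?_⟩
    obtain ⟨N, hN⟩ := hf k e
    refine ⟨N, fun n hn => ?_⟩
    obtain ⟨h1, h2, h3⟩ := hN n hn
    exact ⟨h1, h2, fun t ht => ⟨h3 t ht, fun Ω _ P hP hs =>
      (h3 t ht).family (key n (h n) (f n) h2) Ω P hP hs⟩⟩

end Pool.Agent.Results.MP_b573ec_lc.RandomNotDeterministic
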