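import Pool.Agent.H556R2.Complete

/-!
# The Borel complexity of: both inclusions `P ⊆ RP ⊆ NP` are strict

The set of the oracles `A` with `P^A ⊂ RP^A ⊂ NP^A` (both inclusions strict) is `Σ⁰₃`-complete.
The proof is in modules of helper556.
-/

set_option autoImplicit false

namespace Pool.Agent.Results.MP_b573ec_lc.ZBorelComplexity

open H556R2

/-- The set of the oracles `A` with `P^A ⊂ RP^A ⊂ NP^A` is `Σ⁰₃`-complete. -/
theorem result : Sigma03Complete {A : Oracle | ClassP A ⊂ ClassRP A ∧ ClassRP A ⊂ ClassNP A} :=
  both_strict_complete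

end Pool.Agent.Results.MP_b573ec_lc.ZBorelComplexity
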